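import Pool.Agent.Work.MP_223b32_es.Interface

set_option autoImplicit false

/-! # Block MODU (helper89) -/

namespace Pool.Agent.Work.ES

open Finset Polynomial Module Pool.Agent.Work.MP_223b32_ag Pool.Agent.Work.TC
open Pool.Agent.Work.TL (AA Om Stmt_FA)

namespace MODU

theorem Fr_apply (y : Om) : Fr y = y ^ 2 := rfl

theorem Fr_pow_apply (s : ℕ) (y : Om) : (Fr ^ s) y = y ^ 2 ^ s := by
  induction s generalizing y with
  | zero => simp
  | succ s ih =>
    rw [pow_succ, Module.End.mul_apply, Fr_apply, ih, ← pow_mul, ← pow_succ']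

theorem aeval_pow_two (Z : (ZMod 2)[X]) (y : Om) : aeval (y ^ 2) Z = (aeval y Z) ^ 2 := by
  rw [← frobenius_def, ← frobenius_def 2 (aeval y Z)]
  have h := Polynomial.hom_eval₂ Z (algebraMap (ZMod 2) Om) (frobenius Om 2) y
  have h2 : (frobenius Om 2).comp (algebraMap (ZMod 2) Om) = algebraMap (ZMod 2) Om :=
    RingHom.ext_zmod _ _
  rw [h2] at h
  rw [aeval_def, aeval_def, h]

theorem aeval_pow_two_pow (Z : (ZMod 2)[X]) (s : ℕ) (y : Om) :
    aeval (y ^ 2 ^ s) Z = (aeval y Z) ^ 2 ^ s := by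
  induction s generalizing y with
  | zero => simp
  | succ s ih =>
    rw [pow_succ, pow_mul, aeval_pow_two, ih, ← pow_mul]

end MODU

open MODU in
theorem stmt_MODU (horb : Stmt_ORB2) (hmt : Stmt_MODT) (hmf : Stmt_MODF) : Stmt_MODU := by
  intro k S hS Z hZ I hIS hIne hinv hsum j hj hjk hcard
  obtain ⟨ξ, hξI⟩ := hIne
  have hξS : ξ ∈ S := hIS hξI
  obtain ⟨hξ1, hξ2⟩ := (hS ξ).1 hξS
  obtain ⟨ho1, ho2, ho3⟩ := horb k ξ hξ1 hξ2
  have hn : 0 < 3 ^ k := by positivity
  have hξ0 : ξ ≠ 0 := by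
    intro h
    rw [h, zero_pow (by positivity)] at hξ1
    exact zero_ne_one hξ1
  -- representation
  have hrep : ∀ x ∈ S, ∃ t < 3 ^ k, (x = ξ ^ 2 ^ t ∨ x = (ξ ^ 2 ^ t)⁻¹) ∧
      aeval x Z = (Fr ^ t) (aeval ξ Z) := by
    intro x hx
    obtain ⟨s, hs, hxs⟩ := (ho2 x).1 ((hS x).1 hx)
    rcases lt_or_ge s (3 ^ k) with h | h
    · refine ⟨s, h, Or.inl hxs, ?_⟩
      rw [Fr_pow_apply, hxs, aeval_pow_two_pow]
    · obtain ⟨t, rfl⟩ := Nat.exists_eq_add_of_le h
      have ht : t < 3 ^ k := by omega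
      have hx' : x = (ξ ^ 2 ^ t)⁻¹ := by
        rw [hxs, pow_add, pow_mul, ho1, inv_pow]
      refine ⟨t, ht, Or.inr hx', ?_⟩
      have hmem : ξ ^ 2 ^ t ∈ S := (hS _).2 ((ho2 _).2 ⟨t, by omega, rfl⟩)
      rw [hx', hZ _ hmem, Fr_pow_apply, aeval_pow_two_pow]
  choose! s hs1 hs2 hs3 using hrep
  have hsinj : ∀ x ∈ I, ∀ y ∈ I, s x = s y → x = y := by
    intro x hx y hy hxy
    have h1 := hs2 x (hIS hx)
    have h2 := hs2 y (hIS hy)
    rw [← hxy] at h2
    rcases h1 with h1 | h1 <;> rcases h2 with h2 | h2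
    · rw [h1, h2]
    · exfalso
      apply hinv x hx
      rw [h1, ← h2]
      exact hy
    · exfalso
      apply hinv y hy
      rw [h2, ← h1]
      exact hx
    · rw [h1, h2]
  set f : (ZMod 2)[X] := ∑ x ∈ I, X ^ s x with hf
  have hcoef : f.coeff (s ξ) = 1 := by
    rw [hf, finsetSum_coeff]
    rw [Finset.sum_eq_single ξ]
    · simp
    · intro b hb hbξ
      rw [coeff_X_pow, if_neg]
      intro h
      exact hbξ (hsinj b hb ξ hξI h.symm)
    · intro h
      exact absurd hξI h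
  have hf0 : f ≠ 0 := by
    intro h
    rw [h, coeff_zero] at hcoef
    exact zero_ne_one hcoef
  have hdeg : f.natDegree < 3 ^ k := by
    have : f.natDegree ≤ 3 ^ k - 1 := by
      apply natDegree_sum_le_of_forall_le
      intro x hx
      have := hs1 x (hIS hx)
      rw [natDegree_X_pow]
      omega
    omega
  have hsupp : f.support.card ≤ I.card := by
    have h1 : f.support ⊆ I.image s := by
      intro m hm
      rw [Polynomial.mem_support_iff, hf, finsetSum_coeff] at hm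
      obtain ⟨x, hx, hx2⟩ := Finset.exists_ne_zero_of_sum_ne_zero hm
      rw [coeff_X_pow] at hx2
      rw [Finset.mem_image]
      refine ⟨x, hx, ?_⟩
      by_contra hne
      exact hx2 (if_neg fun h => hne h.symm)
    exact (Finset.card_le_card h1).trans Finset.card_image_le
  have hval : aeval Fr f (aeval ξ Z) = ∑ x ∈ I, aeval x Z := by
    rw [hf, map_sum, LinearMap.sum_apply]
    refine Finset.sum_congr rfl fun x hx => ?_
    rw [map_pow, aeval_X, hs3 x (hIS hx)]
  have h1 : aeval Fr ((X - 1) * f) (aeval ξ Z) = 0 := by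
    rw [map_mul, Module.End.mul_apply, hval, map_sub, aeval_X, map_one]
    show Fr _ - _ = 0
    rcases hsum with h | h
    · rw [h, map_zero]
      simp
    · rw [h, Fr_apply]
      simp
  have h2 : aeval Fr (X ^ 3 ^ k - 1 : (ZMod 2)[X]) (aeval ξ Z) = 0 := by
    rw [map_sub, map_pow, aeval_X, map_one]
    show (Fr ^ 3 ^ k) _ - _ = 0
    rw [Fr_pow_apply, ← aeval_pow_two_pow, ho1, hZ ξ hξS]
    simp
  obtain ⟨i, hji, hik, hi⟩ := hmf k j hj hjk (aeval ξ Z) f hf0 hdeg h1 h2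
    (lt_of_le_of_lt hsupp hcard)
  exact ⟨i, hji, hik, hmt k S hS Z hZ ξ hξS i (hj.trans hji) hik hi⟩

end Pool.Agent.Work.ES
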